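import Mathlib

/-!
# There are continuum many finitely generated projective algebras of plane sets

For every positive integer `k`, the number of isomorphism classes of projective algebras of subsets
of the plane that are generated by `k` sets is the cardinality of the continuum.

Upper bound: the isomorphism class of an algebra generated by sets `S 0, S 1, ...` is determined by
the set of the terms in these generators whose value is empty.

Lower bound: for `E ⊆ ℕ` let `S` consist of the points `(i, j)` with `i < j` natural numbers, and of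
the points `(i, 0)` with `i ∈ E`. A recursion defines, from `S` alone, the sets
`A n = {(i, 0) : i ≥ n}`, and `n ∈ E` holds exactly when `(A n \ A (n + 1)) ∩ S` is not empty. So the
algebra generated by `S` together with its element `S` determines `E`, and, the algebra being
countable, only countably many `E` give the same algebra up to isomorphism.
-/

set_option autoImplicit false

namespace Pool.Agent.Results.MP_71be7b_lc.ContinuumMany

open Cardinal Set

/-- The Euclidean plane, as a set of points. -/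
abbrev Plane : Type := ℝ × ℝ

/-- The first axis. -/
def axisX : Set Plane := {p | p.2 = 0}

/-- The second axis. -/
def axisY : Set Plane := {p | p.1 = 0}

/-- The projection to the first axis: `{(x, 0) : ∃ y, (x, y) ∈ S}`. -/
def proj1 (S : Set Plane) : Set Plane := {p | p.2 = 0 ∧ ∃ y : ℝ, (p.1, y) ∈ S}

/-- The projection to the second axis: `{(0, y) : ∃ x, (x, y) ∈ S}`. -/
def proj2 (S : Set Plane) : Set Plane := {p | p.1 = 0 ∧ ∃ x : ℝ, (x, p.2) ∈ S}

/-- The product `{(x, y) : (x, 0) ∈ A, (0, y) ∈ B}`. -/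
def tensor (A B : Set Plane) : Set Plane := {p | (p.1, (0 : ℝ)) ∈ A ∧ ((0 : ℝ), p.2) ∈ B}

/-- Projective algebras of plane sets. -/
structure IsProjectiveAlgebra (F : Set (Set Plane)) : Prop where
  compl_mem : ∀ S ∈ F, Sᶜ ∈ F
  sUnion_mem : ∀ T : Set (Set Plane), T.Finite → T ⊆ F → ⋃₀ T ∈ F
  proj1_mem : ∀ S ∈ F, proj1 S ∈ F
  proj2_mem : ∀ S ∈ F, proj2 S ∈ F
  tensor_mem : ∀ A ∈ F, ∀ B ∈ F, A ⊆ axisX → B ⊆ axisY → tensor A B ∈ F

/-- The projective algebra generated by the members of `R`: the smallest one that contains `R`. -/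
def generated (R : Set (Set Plane)) : Set (Set Plane) :=
  ⋂₀ {F | IsProjectiveAlgebra F ∧ R ⊆ F}

/-- The type of all projective algebras of plane sets. -/
def ProjAlg : Type := {F : Set (Set Plane) // IsProjectiveAlgebra F}

/-- `φ` is an isomorphism from `F` to `G`: it maps `F` bijectively onto `G` and commutes with
complement, union, the two projections and the product. -/
structure IsIso (F G : Set (Set Plane)) (φ : Set Plane → Set Plane) : Prop where
  bij : BijOn φ F G
  compl : ∀ A ∈ F, φ Aᶜ = (φ A)ᶜ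
  union : ∀ A ∈ F, ∀ B ∈ F, φ (A ∪ B) = φ A ∪ φ B
  proj1 : ∀ A ∈ F, φ (proj1 A) = proj1 (φ A)
  proj2 : ∀ A ∈ F, φ (proj2 A) = proj2 (φ A)
  tensor : ∀ A ∈ F, ∀ B ∈ F, A ⊆ axisX → B ⊆ axisY → φ (tensor A B) = tensor (φ A) (φ B)

/-- Isomorphic projective algebras. -/
def Isomorphic (F G : ProjAlg) : Prop := ∃ φ : Set Plane → Set Plane, IsIso F.1 G.1 φ

/-! ### Closure properties -/

namespace IsProjectiveAlgebra

variable {F : Set (Set Plane)} (hF : IsProjectiveAlgebra F)
include hF

theorem empty_mem : (∅ : Set Plane) ∈ F := by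
  simpa using hF.sUnion_mem ∅ finite_empty (empty_subset _)

theorem univ_mem : (univ : Set Plane) ∈ F := by
  simpa using hF.compl_mem _ hF.empty_mem

theorem union_mem {A B : Set Plane} (hA : A ∈ F) (hB : B ∈ F) : A ∪ B ∈ F := by
  have h := hF.sUnion_mem {A, B} (by simp) (by
    intro x hx
    rcases hx with rfl | rfl
    · exact hA
    · exact hB)
  simpa using h

theorem inter_mem {A B : Set Plane} (hA : A ∈ F) (hB : B ∈ F) : A ∩ B ∈ F := by
  have h := hF.compl_mem _ (hF.union_mem (hF.compl_mem _ hA) (hF.compl_mem _ hB))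
  simpa [compl_union] using h

theorem axisX_mem : axisX ∈ F := by
  have h := hF.proj1_mem _ hF.univ_mem
  have : ContinuumMany.proj1 univ = axisX := by
    ext p; simp [ContinuumMany.proj1, axisX]
  rwa [this] at h

theorem axisY_mem : axisY ∈ F := by
  have h := hF.proj2_mem _ hF.univ_mem
  have : ContinuumMany.proj2 univ = axisY := by
    ext p; simp [ContinuumMany.proj2, axisY]
  rwa [this] at h

end IsProjectiveAlgebra

theorem tensor_eq_inter (A B : Set Plane) : tensor A B = tensor (A ∩ axisX) (B ∩ axisY) := by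
  ext p; simp [tensor, axisX, axisY]

theorem IsProjectiveAlgebra.tensor_mem' {F : Set (Set Plane)} (hF : IsProjectiveAlgebra F)
    {A B : Set Plane} (hA : A ∈ F) (hB : B ∈ F) : ContinuumMany.tensor A B ∈ F := by
  rw [tensor_eq_inter]
  exact hF.tensor_mem _ (hF.inter_mem hA hF.axisX_mem) _ (hF.inter_mem hB hF.axisY_mem)
    inter_subset_right inter_subset_right

theorem generated_isProjectiveAlgebra (R : Set (Set Plane)) :
    IsProjectiveAlgebra (generated R) where
  compl_mem S hS := by
    rw [generated, mem_sInter] at *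
    exact fun F hF => hF.1.compl_mem _ (hS F hF)
  sUnion_mem T hT hTF := by
    rw [generated, mem_sInter]
    exact fun F hF => hF.1.sUnion_mem T hT fun x hx => (mem_sInter.1 (hTF hx)) F hF
  proj1_mem S hS := by
    rw [generated, mem_sInter] at *
    exact fun F hF => hF.1.proj1_mem _ (hS F hF)
  proj2_mem S hS := by
    rw [generated, mem_sInter] at *
    exact fun F hF => hF.1.proj2_mem _ (hS F hF)
  tensor_mem A hA B hB hAX hBY := by
    rw [generated, mem_sInter] at *
    exact fun F hF => hF.1.tensor_mem _ (hA F hF) _ (hB F hF) hAX hBY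

theorem subset_generated (R : Set (Set Plane)) : R ⊆ generated R := by
  intro x hx
  rw [generated, mem_sInter]
  exact fun F hF => hF.2 hx

theorem generated_subset {R F : Set (Set Plane)} (hF : IsProjectiveAlgebra F) (hR : R ⊆ F) :
    generated R ⊆ F := sInter_subset_of_mem ⟨hF, hR⟩

theorem generated_eq {R R' : Set (Set Plane)} (h : R ⊆ R') (h' : R' ⊆ generated R) :
    generated R' = generated R :=
  Subset.antisymm (generated_subset (generated_isProjectiveAlgebra R) h')
    (generated_subset (generated_isProjectiveAlgebra R') (h.trans (subset_generated R')))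

/-! ### Terms -/

/-- Terms in the variables `0, 1, 2, ...`. -/
inductive Term : Type
  | var (n : ℕ)
  | neg (t : Term)
  | join (t u : Term)
  | p1 (t : Term)
  | p2 (t : Term)
  | tens (t u : Term)
  deriving Countable

namespace Term

/-- The value of a term. -/
def eval (S : ℕ → Set Plane) : Term → Set Plane
  | var n => S n
  | neg t => (eval S t)ᶜ
  | join t u => eval S t ∪ eval S u
  | p1 t => proj1 (eval S t)
  | p2 t => proj2 (eval S t)
  | tens t u => tensor (eval S t) (eval S u)

theorem eval_mem {F : Set (Set Plane)} (hF : IsProjectiveAlgebra F) {S : ℕ → Set Plane}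
    (hS : ∀ n, S n ∈ F) : ∀ t : Term, eval S t ∈ F
  | var n => hS n
  | neg t => hF.compl_mem _ (eval_mem hF hS t)
  | join t u => hF.union_mem (eval_mem hF hS t) (eval_mem hF hS u)
  | p1 t => hF.proj1_mem _ (eval_mem hF hS t)
  | p2 t => hF.proj2_mem _ (eval_mem hF hS t)
  | tens t u => hF.tensor_mem' (eval_mem hF hS t) (eval_mem hF hS u)

theorem range_eval (S : ℕ → Set Plane) : IsProjectiveAlgebra (range (eval S)) where
  compl_mem := by
    rintro _ ⟨t, rfl⟩
    exact ⟨neg t, rfl⟩
  sUnion_mem T hT := by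
    refine hT.induction_on (motive := fun T _ => T ⊆ range (eval S) → ⋃₀ T ∈ range (eval S))
      T ?_ ?_
    · intro _
      refine ⟨neg (join (var 0) (neg (var 0))), ?_⟩
      simp [eval]
    · intro a s _ _ ih h
      obtain ⟨t, ht⟩ := h (mem_insert a s)
      obtain ⟨u, hu⟩ := ih ((subset_insert a s).trans h)
      refine ⟨join t u, ?_⟩
      rw [sUnion_insert, ← ht, ← hu]
      rfl
  proj1_mem := by
    rintro _ ⟨t, rfl⟩
    exact ⟨p1 t, rfl⟩
  proj2_mem := by
    rintro _ ⟨t, rfl⟩
    exact ⟨p2 t, rfl⟩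
  tensor_mem := by
    rintro _ ⟨t, rfl⟩ _ ⟨u, rfl⟩ _ _
    exact ⟨tens t u, rfl⟩

theorem generated_range (S : ℕ → Set Plane) : generated (range S) = range (eval S) := by
  refine Subset.antisymm (generated_subset (range_eval S) ?_) ?_
  · rintro _ ⟨n, rfl⟩
    exact ⟨var n, rfl⟩
  · rintro _ ⟨t, rfl⟩
    exact eval_mem (generated_isProjectiveAlgebra _)
      (fun n => subset_generated _ (mem_range_self n)) t

end Term

open Term

/-! ### Isomorphisms -/

namespace IsIso

variable {F G : Set (Set Plane)} {φ : Set Plane → Set Plane}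

theorem map_univ (h : IsIso F G φ) (hF : IsProjectiveAlgebra F) :
    φ (Set.univ : Set Plane) = (Set.univ : Set Plane) := by
  have h1 := h.union _ hF.empty_mem _ (hF.compl_mem _ hF.empty_mem)
  rw [h.compl _ hF.empty_mem] at h1
  simpa using h1

theorem map_empty (h : IsIso F G φ) (hF : IsProjectiveAlgebra F) : φ ∅ = ∅ := by
  have h1 := h.compl _ hF.univ_mem
  rw [h.map_univ hF] at h1
  simpa using h1

theorem map_inter (h : IsIso F G φ) (hF : IsProjectiveAlgebra F) {A B : Set Plane} (hA : A ∈ F)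
    (hB : B ∈ F) : φ (A ∩ B) = φ A ∩ φ B := by
  have h1 := h.compl _ (hF.union_mem (hF.compl_mem _ hA) (hF.compl_mem _ hB))
  rw [h.union _ (hF.compl_mem _ hA) _ (hF.compl_mem _ hB), h.compl _ hA, h.compl _ hB] at h1
  simpa [compl_union] using h1

theorem map_axisX (h : IsIso F G φ) (hF : IsProjectiveAlgebra F) : φ axisX = axisX := by
  have h1 := h.proj1 _ hF.univ_mem
  have h2 : ContinuumMany.proj1 univ = axisX := by
    ext p; simp [ContinuumMany.proj1, axisX]
  rwa [h.map_univ hF, h2] at h1

theorem map_axisY (h : IsIso F G φ) (hF : IsProjectiveAlgebra F) : φ axisY = axisY := by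
  have h1 := h.proj2 _ hF.univ_mem
  have h2 : ContinuumMany.proj2 univ = axisY := by
    ext p; simp [ContinuumMany.proj2, axisY]
  rwa [h.map_univ hF, h2] at h1

theorem map_tensor (h : IsIso F G φ) (hF : IsProjectiveAlgebra F) {A B : Set Plane} (hA : A ∈ F)
    (hB : B ∈ F) : φ (ContinuumMany.tensor A B) = ContinuumMany.tensor (φ A) (φ B) := by
  rw [tensor_eq_inter A B, h.tensor _ (hF.inter_mem hA hF.axisX_mem) _
    (hF.inter_mem hB hF.axisY_mem) inter_subset_right inter_subset_right,
    h.map_inter hF hA hF.axisX_mem, h.map_inter hF hB hF.axisY_mem, h.map_axisX hF,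
    h.map_axisY hF, ← tensor_eq_inter]

theorem map_eval (h : IsIso F G φ) (hF : IsProjectiveAlgebra F) {S : ℕ → Set Plane}
    (hS : ∀ n, S n ∈ F) : ∀ t : Term, φ (eval S t) = eval (fun n => φ (S n)) t
  | var n => rfl
  | neg t => by
      have := map_eval h hF hS t
      simp only [eval, ← this]
      exact h.compl _ (eval_mem hF hS t)
  | join t u => by
      have h1 := map_eval h hF hS t
      have h2 := map_eval h hF hS u
      simp only [eval, ← h1, ← h2]
      exact h.union _ (eval_mem hF hS t) _ (eval_mem hF hS u)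
  | p1 t => by
      have := map_eval h hF hS t
      simp only [eval, ← this]
      exact h.proj1 _ (eval_mem hF hS t)
  | p2 t => by
      have := map_eval h hF hS t
      simp only [eval, ← this]
      exact h.proj2 _ (eval_mem hF hS t)
  | tens t u => by
      have h1 := map_eval h hF hS t
      have h2 := map_eval h hF hS u
      simp only [eval, ← h1, ← h2]
      exact h.map_tensor hF (eval_mem hF hS t) (eval_mem hF hS u)

end IsIso

/-- Isomorphism is an equivalence relation on the projective algebras. -/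
theorem isomorphic_equivalence : Equivalence Isomorphic where
  refl F := ⟨id, ⟨bijOn_id _, fun _ _ => rfl, fun _ _ _ _ => rfl, fun _ _ => rfl, fun _ _ => rfl,
    fun _ _ _ _ _ _ => rfl⟩⟩
  symm := by
    rintro F G ⟨φ, h⟩
    have hF := F.2
    have hG := G.2
    set ψ := Function.invFunOn φ F.1 with hψ
    have hinv : InvOn ψ φ F.1 G.1 := h.bij.invOn_invFunOn
    have hb : BijOn ψ G.1 F.1 := h.bij.symm hinv.symm
    have key : ∀ A ∈ F.1, ∀ B ∈ G.1, φ A = B → ψ B = A := by
      rintro A hA _ _ rfl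
      exact hinv.1 hA
    refine ⟨ψ, hb, ?_, ?_, ?_, ?_, ?_⟩
    · intro B hB
      refine key _ (hF.compl_mem _ (hb.mapsTo hB)) _ (hG.compl_mem _ hB) ?_
      rw [h.compl _ (hb.mapsTo hB), hinv.2 hB]
    · intro B hB C hC
      refine key _ (hF.union_mem (hb.mapsTo hB) (hb.mapsTo hC)) _ (hG.union_mem hB hC) ?_
      rw [h.union _ (hb.mapsTo hB) _ (hb.mapsTo hC), hinv.2 hB, hinv.2 hC]
    · intro B hB
      refine key _ (hF.proj1_mem _ (hb.mapsTo hB)) _ (hG.proj1_mem _ hB) ?_
      rw [h.proj1 _ (hb.mapsTo hB), hinv.2 hB]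
    · intro B hB
      refine key _ (hF.proj2_mem _ (hb.mapsTo hB)) _ (hG.proj2_mem _ hB) ?_
      rw [h.proj2 _ (hb.mapsTo hB), hinv.2 hB]
    · intro B hB C hC _ _
      refine key _ (hF.tensor_mem' (hb.mapsTo hB) (hb.mapsTo hC)) _ (hG.tensor_mem' hB hC) ?_
      rw [h.map_tensor hF (hb.mapsTo hB) (hb.mapsTo hC), hinv.2 hB, hinv.2 hC]
  trans := by
    rintro F G H ⟨φ, h⟩ ⟨ψ, h'⟩
    have hF := F.2
    have hG := G.2
    refine ⟨ψ ∘ φ, h'.bij.comp h.bij, ?_, ?_, ?_, ?_, ?_⟩
    · intro A hA
      simp only [Function.comp]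
      rw [h.compl _ hA, h'.compl _ (h.bij.mapsTo hA)]
    · intro A hA B hB
      simp only [Function.comp]
      rw [h.union _ hA _ hB, h'.union _ (h.bij.mapsTo hA) _ (h.bij.mapsTo hB)]
    · intro A hA
      simp only [Function.comp]
      rw [h.proj1 _ hA, h'.proj1 _ (h.bij.mapsTo hA)]
    · intro A hA
      simp only [Function.comp]
      rw [h.proj2 _ hA, h'.proj2 _ (h.bij.mapsTo hA)]
    · intro A hA B hB _ _
      simp only [Function.comp]
      rw [h.map_tensor hF hA hB, h'.map_tensor hG (h.bij.mapsTo hA) (h.bij.mapsTo hB)]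

/-- The setoid of isomorphism of projective algebras. -/
instance isoSetoid : Setoid ProjAlg := ⟨Isomorphic, isomorphic_equivalence⟩

/-- The set of the isomorphism classes of the projective algebras that are generated by a set `R`
of subsets of the plane with `R ∈ 𝓡`. -/
def classes (𝓡 : Set (Set (Set Plane))) : Set (Quotient isoSetoid) :=
  {c | ∃ F : ProjAlg, ⟦F⟧ = c ∧ ∃ R ∈ 𝓡, F.1 = generated R}

/-! ### The upper bound -/

theorem eval_eq_iff (S : ℕ → Set Plane) (t u : Term) :
    eval S t = eval S u ↔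
      eval S (join (neg (join (neg t) u)) (neg (join (neg u) t))) = ∅ := by
  simp only [eval, union_empty_iff, compl_union, compl_compl]
  constructor
  · intro h
    rw [h]
    simp
  · rintro ⟨h1, h2⟩
    refine Subset.antisymm ?_ ?_
    · intro x hx
      by_contra hxu
      have : x ∈ eval S t ∩ (eval S u)ᶜ := ⟨hx, hxu⟩
      rw [h1] at this
      exact this
    · intro x hx
      by_contra hxu
      have : x ∈ eval S u ∩ (eval S t)ᶜ := ⟨hx, hxu⟩
      rw [h2] at this
      exact this

theorem isomorphic_of_eval {S S' : ℕ → Set Plane} (F G : ProjAlg)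
    (hF : F.1 = range (eval S)) (hG : G.1 = range (eval S'))
    (h : ∀ t : Term, eval S t = ∅ ↔ eval S' t = ∅) : Isomorphic F G := by
  classical
  have hiff : ∀ t u : Term, eval S t = eval S u ↔ eval S' t = eval S' u := by
    intro t u
    rw [eval_eq_iff, eval_eq_iff]
    exact h _
  let φ : Set Plane → Set Plane := fun A =>
    if hA : ∃ t, eval S t = A then eval S' hA.choose else ∅
  have hφ : ∀ t, φ (eval S t) = eval S' t := by
    intro t
    have hA : ∃ u, eval S u = eval S t := ⟨t, rfl⟩
    have h1 : φ (eval S t) = eval S' hA.choose := by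
      simp only [φ]
      rw [dif_pos hA]
    rw [h1]
    exact (hiff _ _).1 hA.choose_spec
  refine ⟨φ, ?_, ?_, ?_, ?_, ?_, ?_⟩
  · rw [hF, hG]
    refine ⟨?_, ?_, ?_⟩
    · rintro _ ⟨t, rfl⟩
      exact ⟨t, (hφ t).symm⟩
    · rintro _ ⟨t, rfl⟩ _ ⟨u, rfl⟩ htu
      rw [hφ, hφ] at htu
      exact (hiff _ _).2 htu
    · rintro _ ⟨t, rfl⟩
      exact ⟨eval S t, ⟨t, rfl⟩, hφ t⟩
  · rw [hF]
    rintro _ ⟨t, rfl⟩
    exact (hφ (neg t)).trans (by rw [hφ]; rfl)
  · rw [hF]
    rintro _ ⟨t, rfl⟩ _ ⟨u, rfl⟩
    exact (hφ (join t u)).trans (by rw [hφ, hφ]; rfl)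
  · rw [hF]
    rintro _ ⟨t, rfl⟩
    exact (hφ (p1 t)).trans (by rw [hφ]; rfl)
  · rw [hF]
    rintro _ ⟨t, rfl⟩
    exact (hφ (p2 t)).trans (by rw [hφ]; rfl)
  · rw [hF]
    rintro _ ⟨t, rfl⟩ _ ⟨u, rfl⟩ _ _
    exact (hφ (tens t u)).trans (by rw [hφ, hφ]; rfl)

theorem exists_enum {R : Set (Set Plane)} (hR : R.Countable) :
    ∃ S : ℕ → Set Plane, generated R = range (eval S) := by
  have h1 : (insert (∅ : Set Plane) R).Countable := hR.insert _
  obtain ⟨S, hS⟩ := h1.exists_eq_range (insert_nonempty _ _)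
  refine ⟨S, ?_⟩
  rw [← generated_range, ← hS]
  refine (generated_eq (subset_insert _ _) ?_).symm
  refine insert_subset (generated_isProjectiveAlgebra R).empty_mem (subset_generated R)

theorem classes_le (𝓡 : Set (Set (Set Plane))) (h𝓡 : ∀ R ∈ 𝓡, R.Countable) :
    #(classes 𝓡) ≤ 𝔠 := by
  have h1 : ∀ c : classes 𝓡, ∃ S : ℕ → Set Plane, ∃ F : ProjAlg, ⟦F⟧ = c.1 ∧
      F.1 = range (eval S) := by
    rintro ⟨c, F, hF, R, hR, hFR⟩
    obtain ⟨S, hS⟩ := exists_enum (h𝓡 R hR)
    exact ⟨S, F, hF, hFR.trans hS⟩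
  choose S F hF hS using h1
  have hinj : Function.Injective (fun c : classes 𝓡 => {t : Term | eval (S c) t = ∅}) := by
    intro c d hcd
    apply Subtype.ext
    rw [← hF c, ← hF d]
    apply Quotient.sound
    refine isomorphic_of_eval (F c) (F d) (hS c) (hS d) ?_
    intro t
    have : t ∈ {t : Term | eval (S c) t = ∅} ↔ t ∈ {t : Term | eval (S d) t = ∅} := by
      rw [show {t : Term | eval (S c) t = ∅} = {t : Term | eval (S d) t = ∅} from hcd]
    exact this
  calc #(classes 𝓡) ≤ #(Set Term) := mk_le_of_injective hinj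
    _ = 2 ^ #Term := mk_set
    _ ≤ 2 ^ ℵ₀ := power_le_power_left two_ne_zero (mk_le_aleph0)
    _ = 𝔠 := two_power_aleph0

/-! ### The lower bound -/

/-- The generator that codes `E`. -/
def gen (E : Set ℕ) : Set Plane :=
  {p | (∃ i j : ℕ, i < j ∧ p = ((i : ℝ), (j : ℝ))) ∨ ∃ i ∈ E, p = ((i : ℝ), (0 : ℝ))}

/-- The term `t ∩ u`. -/
def meet (t u : Term) : Term := neg (join (neg t) (neg u))

/-- The term `t \ u`. -/
def diff (t u : Term) : Term := meet t (neg u)

theorem eval_meet (S : ℕ → Set Plane) (t u : Term) :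
    eval S (meet t u) = eval S t ∩ eval S u := by
  simp [meet, eval, compl_union]

theorem eval_diff (S : ℕ → Set Plane) (t u : Term) :
    eval S (diff t u) = eval S t \ eval S u := by
  rw [diff, eval_meet]
  rfl

/-- A term for the origin. -/
def originT : Term := p2 (p1 (join (var 0) (neg (var 0))))

theorem eval_originT (S : ℕ → Set Plane) : eval S originT = {((0 : ℝ), (0 : ℝ))} := by
  ext ⟨x, y⟩
  simp [originT, eval, proj1, proj2, Prod.ext_iff]

/-- The pairs of terms for `A n = {(i, 0) : i ≥ n}` and `B n = {(0, j) : j ≥ n + 1}`. -/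
def AB : ℕ → Term × Term
  | 0 => (p1 (var 0), diff (p2 (var 0)) originT)
  | n + 1 =>
    (p1 (diff (tens (AB n).1 (AB n).2) (var 0)),
      p2 (meet (var 0) (tens (p1 (diff (tens (AB n).1 (AB n).2) (var 0))) (AB n).2)))

/-- The set `{(i, 0) : i ≥ n}`. -/
def setA (n : ℕ) : Set Plane := {p | p.2 = 0 ∧ ∃ i : ℕ, n ≤ i ∧ p.1 = i}

/-- The set `{(0, j) : j ≥ n + 1}`. -/
def setB (n : ℕ) : Set Plane := {p | p.1 = 0 ∧ ∃ j : ℕ, n + 1 ≤ j ∧ p.2 = j}

theorem mem_gen {E : Set ℕ} {x y : ℝ} :
    (x, y) ∈ gen E ↔ (∃ i j : ℕ, i < j ∧ x = i ∧ y = j) ∨ ∃ i ∈ E, x = i ∧ y = 0 := by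
  simp [gen, Prod.ext_iff]

theorem mem_gen_nat {E : Set ℕ} {i j : ℕ} (hj : 1 ≤ j) :
    ((i : ℝ), (j : ℝ)) ∈ gen E ↔ i < j := by
  rw [mem_gen]
  constructor
  · rintro (⟨i', j', h, h1, h2⟩ | ⟨i', _, _, h2⟩)
    · have e1 : i = i' := by exact_mod_cast h1
      have e2 : j = j' := by exact_mod_cast h2
      subst e1 e2
      exact h
    · have : j = 0 := by exact_mod_cast h2
      omega
  · intro h
    exact Or.inl ⟨i, j, h, rfl, rfl⟩

theorem eval_AB (E : Set ℕ) : ∀ n : ℕ,
    eval (fun _ => gen E) (AB n).1 = setA n ∧ eval (fun _ => gen E) (AB n).2 = setB n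
  | 0 => by
      constructor
      · ext ⟨x, y⟩
        simp only [AB, eval, proj1, mem_ofPred_eq, setA]
        constructor
        · rintro ⟨hy, z, hz⟩
          refine ⟨hy, ?_⟩
          rcases mem_gen.1 hz with ⟨i, j, _, h1, _⟩ | ⟨i, _, h1, _⟩
          · exact ⟨i, Nat.zero_le _, h1⟩
          · exact ⟨i, Nat.zero_le _, h1⟩
        · rintro ⟨hy, i, _, hi⟩
          refine ⟨hy, ((i + 1 : ℕ) : ℝ), ?_⟩
          rw [hi]
          exact (mem_gen_nat (by omega)).2 (by omega)
      · ext ⟨x, y⟩
        simp only [AB, eval_diff, eval_originT]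
        simp only [eval, proj2, mem_sdiff, mem_ofPred_eq, setB, mem_singleton_iff, Prod.mk.injEq,
          not_and]
        constructor
        · rintro ⟨⟨hx, z, hz⟩, h0⟩
          refine ⟨hx, ?_⟩
          rcases mem_gen.1 hz with ⟨i, j, hij, _, h2⟩ | ⟨i, _, _, h2⟩
          · exact ⟨j, by omega, h2⟩
          · exact absurd h2 (h0 hx)
        · rintro ⟨hx, j, hj, hy⟩
          refine ⟨⟨hx, ((0 : ℕ) : ℝ), ?_⟩, ?_⟩
          · rw [hy]
            exact (mem_gen_nat (by omega)).2 (by omega)
          · intro _ h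
            rw [hy] at h
            have : j = 0 := by exact_mod_cast h
            omega
  | n + 1 => by
      obtain ⟨hA, hB⟩ := eval_AB E n
      have h1 : eval (fun _ => gen E) (AB (n + 1)).1 = setA (n + 1) := by
        ext ⟨x, y⟩
        simp only [AB]
        show _ ∈ proj1 (eval _ _) ↔ _
        rw [eval_diff]
        show _ ∈ proj1 (tensor (eval _ _) (eval _ _) \ gen E) ↔ _
        rw [hA, hB]
        simp only [proj1, tensor, setA, setB, mem_sdiff, mem_ofPred_eq, true_and]
        constructor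
        · rintro ⟨hy, z, ⟨⟨i, hi, hxi⟩, j, hj, hzj⟩, hn⟩
          refine ⟨hy, i, ?_, hxi⟩
          rw [hxi, hzj, mem_gen_nat (by omega)] at hn
          omega
        · rintro ⟨hy, i, hi, hxi⟩
          refine ⟨hy, ((n + 1 : ℕ) : ℝ), ⟨⟨i, by omega, hxi⟩, n + 1, le_rfl, rfl⟩, ?_⟩
          rw [hxi, mem_gen_nat (by omega)]
          omega
      refine ⟨h1, ?_⟩
      ext ⟨x, y⟩
      have h2 : eval (fun _ => gen E) (AB (n + 1)).2 =
          proj2 (gen E ∩ tensor (setA (n + 1)) (setB n)) := by
        rw [← h1, ← hB]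
        simp only [AB]
        show proj2 (eval _ (meet _ _)) = _
        rw [eval_meet]
        rfl
      rw [h2]
      simp only [proj2, tensor, setA, setB, mem_inter_iff, mem_ofPred_eq, true_and]
      constructor
      · rintro ⟨hx, z, hz, ⟨i, hi, hzi⟩, j, hj, hyj⟩
        refine ⟨hx, j, ?_, hyj⟩
        rw [hzi, hyj, mem_gen_nat (by omega)] at hz
        omega
      · rintro ⟨hx, j, hj, hyj⟩
        refine ⟨hx, ((n + 1 : ℕ) : ℝ), ?_, ⟨n + 1, le_rfl, rfl⟩, j, by omega, hyj⟩
        rw [hyj, mem_gen_nat (by omega)]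
        omega

/-- The term that tests whether `n ∈ E`. -/
def testT (n : ℕ) : Term := meet (diff (AB n).1 (AB (n + 1)).1) (var 0)

theorem eval_testT (E : Set ℕ) (n : ℕ) : eval (fun _ => gen E) (testT n) = ∅ ↔ n ∉ E := by
  rw [testT, eval_meet, eval_diff, (eval_AB E n).1, (eval_AB E (n + 1)).1]
  constructor
  · intro h hn
    have : ((n : ℝ), (0 : ℝ)) ∈ (setA n \ setA (n + 1)) ∩ eval (fun _ => gen E) (var 0) := by
      refine ⟨⟨⟨rfl, n, le_rfl, rfl⟩, ?_⟩, ?_⟩
      · rintro ⟨_, i, hi, hni⟩
        have : n = i := Nat.cast_injective (R := ℝ) hni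
        omega
      · exact mem_gen.2 (Or.inr ⟨n, hn, rfl, rfl⟩)
    rw [h] at this
    exact this
  · intro hn
    rw [eq_empty_iff_forall_notMem]
    rintro ⟨x, y⟩ ⟨⟨⟨hy, i, hi, hxi⟩, h2⟩, h3⟩
    have hin : i = n := by
      by_contra hne
      exact h2 ⟨hy, i, by omega, hxi⟩
    subst hin
    simp only at hy hxi
    rcases mem_gen.1 h3 with ⟨i', j, hij, _, hyj⟩ | ⟨i', hi', hx', _⟩
    · rw [hy] at hyj
      have : j = 0 := by exact_mod_cast hyj.symm
      omega
    · rw [hxi] at hx'
      have : i = i' := by exact_mod_cast hx'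
      rw [← this] at hi'
      exact hn hi'

/-- The algebra generated by `gen E`. -/
def alg (E : Set ℕ) : ProjAlg := ⟨generated {gen E}, generated_isProjectiveAlgebra _⟩

theorem alg_eq_range (E : Set ℕ) : (alg E).1 = range (eval fun _ => gen E) := by
  have h := generated_range (fun _ : ℕ => gen E)
  rw [range_const] at h
  exact h

theorem alg_countable (E : Set ℕ) : (alg E).1.Countable := by
  rw [alg_eq_range]
  exact countable_range _

theorem gen_mem_alg (E : Set ℕ) : gen E ∈ (alg E).1 := subset_generated _ rfl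

theorem fiber_countable (E : Set ℕ) : {E' : Set ℕ | Isomorphic (alg E') (alg E)}.Countable := by
  classical
  have h1 : ∀ E' : Set ℕ, ∃ φ : Set Plane → Set Plane,
      Isomorphic (alg E') (alg E) → IsIso (alg E').1 (alg E).1 φ := by
    intro E'
    by_cases h : Isomorphic (alg E') (alg E)
    · obtain ⟨φ, hφ⟩ := h
      exact ⟨φ, fun _ => hφ⟩
    · exact ⟨id, fun h' => absurd h' h⟩
  choose φ hφ using h1
  refine MapsTo.countable_of_injOn (f := fun E' => φ E' (gen E')) (t := (alg E).1) ?_ ?_
    (alg_countable E)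
  · intro E' hE'
    exact (hφ E' hE').bij.mapsTo (gen_mem_alg E')
  · intro E1 h1 E2 h2 h12
    have key : ∀ E' : Set ℕ, Isomorphic (alg E') (alg E) → ∀ n,
        (eval (fun _ => φ E' (gen E')) (testT n) = ∅ ↔ n ∉ E') := by
      intro E' hE' n
      have hiso := hφ E' hE'
      have hm : ∀ _ : ℕ, gen E' ∈ (alg E').1 := fun _ => gen_mem_alg E'
      rw [← hiso.map_eval (alg E').2 hm (testT n), ← eval_testT E' n]
      constructor
      · intro h
        rw [← hiso.map_empty (alg E').2] at h
        exact hiso.bij.injOn (eval_mem (alg E').2 hm _) (alg E').2.empty_mem h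
      · intro h
        rw [h]
        exact hiso.map_empty (alg E').2
    ext n
    have e1 := key E1 h1 n
    have e2 := key E2 h2 n
    have h12' : φ E1 (gen E1) = φ E2 (gen E2) := h12
    rw [h12'] at e1
    exact not_iff_not.1 (e1.symm.trans e2)

theorem setA_injective : Function.Injective setA := by
  intro m n h
  have key : ∀ m n : ℕ, setA m = setA n → n ≤ m := by
    intro m n h
    have : ((m : ℝ), (0 : ℝ)) ∈ setA m := ⟨rfl, m, le_rfl, rfl⟩
    rw [h] at this
    obtain ⟨_, i, hi, hmi⟩ := this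
    have : m = i := Nat.cast_injective (R := ℝ) hmi
    omega
  exact le_antisymm (key n m h.symm) (key m n h)

theorem alg_infinite (E : Set ℕ) : (alg E).1.Infinite := by
  refine infinite_of_injective_forall_mem setA_injective ?_
  intro n
  rw [alg_eq_range, ← (eval_AB E n).1]
  exact mem_range_self _

theorem alg_class_mem (E : Set ℕ) {k : ℕ} (hk : 1 ≤ k) :
    ⟦alg E⟧ ∈ classes {R | R.encard = k} := by
  obtain ⟨R, hR1, hR2, hR3⟩ := exists_superset_subset_encard_eq (k := (k : ℕ∞))
    (singleton_subset_iff.2 (gen_mem_alg E))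
    (by rw [encard_singleton]; exact_mod_cast hk) (by rw [(alg_infinite E).encard_eq]; exact le_top)
  exact ⟨alg E, rfl, R, hR3, (generated_eq hR1 hR2).symm⟩

theorem le_classes {k : ℕ} (hk : 1 ≤ k) : 𝔠 ≤ #(classes {R | R.encard = k}) := by
  have h1 : #(Set ℕ) ≤ #(classes {R | R.encard = k}) * ℵ₀ := by
    refine mk_le_mk_mul_of_mk_preimage_le
      (fun E : Set ℕ => (⟨⟦alg E⟧, alg_class_mem E hk⟩ : classes {R | R.encard = k})) ?_
    rintro ⟨c, hc⟩
    rcases eq_empty_or_nonempty ((fun E : Set ℕ =>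
      (⟨⟦alg E⟧, alg_class_mem E hk⟩ : classes {R | R.encard = k})) ⁻¹' {⟨c, hc⟩}) with h | ⟨E, hE⟩
    · rw [h]
      simp
    · rw [le_aleph0_iff_set_countable]
      refine (fiber_countable E).mono ?_
      intro E' hE'
      simp only [mem_preimage, mem_singleton_iff, Subtype.mk.injEq] at hE hE'
      exact Quotient.exact (hE'.trans hE.symm)
  rw [mk_set, mk_nat, two_power_aleph0] at h1
  by_contra hlt
  rw [not_le] at hlt
  have : #(classes {R | R.encard = k}) * ℵ₀ < 𝔠 :=
    mul_lt_of_lt aleph0_le_continuum hlt aleph0_lt_continuum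
  exact absurd h1 (not_le.2 this)

/-- For every positive integer `k`, there are exactly continuum many isomorphism classes of
projective algebras generated by `k` subsets of the plane, both when the `k` generators are required
to be different, and when repetitions are allowed (at most `k` different generators). -/
theorem result (k : ℕ) (hk : 1 ≤ k) :
    #(classes {R | R.encard = k}) = 𝔠 ∧ #(classes {R | R.encard ≤ k}) = 𝔠 := by
  have hsub : classes {R | R.encard = k} ⊆ classes {R | R.encard ≤ k} := by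
    rintro c ⟨F, hF, R, hR, h⟩
    exact ⟨F, hF, R, le_of_eq hR, h⟩
  have hle : #(classes {R | R.encard ≤ k}) ≤ 𝔠 := by
    refine classes_le _ ?_
    intro R hR
    exact (finite_of_encard_le_coe hR).countable
  have h1 := le_classes hk
  have h2 := mk_le_mk_of_subset hsub
  exact ⟨le_antisymm (h2.trans hle) h1, le_antisymm hle (h1.trans h2)⟩

end Pool.Agent.Results.MP_71be7b_lc.ContinuumMany
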